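import Pool.Agent.Run7.h444.WC4
import Pool.Agent.Y151.PV.Hyp

/-!
# The hyperplane form of the KLS conjecture for few convex functions of bounded condition number

Q1 for all symmetric convex bodies which are images, under affine maps of `ℝ^m` onto `ℝⁿ`, `m ≤ n + p`, of
bodies

`K = {x ∈ ℝ^m | S_j(x) ≤ e_j for all j < r}` (bounded, with a point where all inequalities are strict),

where the `S_j ≥ 0` are convex functions whose condition number relative to some quadratic form is at
most `κ`: there are linear maps `A_j` on `ℝ^m`, which may have a kernel, such that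

`S_j(x) - ‖A_j x‖² / 2` and `κ ‖A_j x‖² / 2 - S_j(x)` are convex.

Some central hyperplane section has area at most a constant times the relative perimeter of every set
of half the volume (whether isoperimetric or not); the constant depends only on `κ`, `r` and `p`. Examples:
intersections of `r` arbitrary ellipsoids and elliptic cylinders (`κ = 1`, theorem `ellipsoids`; the single
ellipsoids need not be symmetric, only the intersection), their sections by subspaces of any dimension
and their projections along `p` dimensions; intersections of `r` smooth convex bodies with curvatures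
between two constants times those of an ellipsoid, of any sizes and in any position.

The theorem is the one of helper444 for `MP_6d896a_gt` (`ConditionedLevelSets`), in the form of this
problem. Method: the Gibbs densities `exp(-V)`, `V = ∑ l_j S_j`, `l_j > 0`, have the condition number `κ`
relative to the form `Q = ∑ l_j Q_j`, `Q_j = A_jᵀ A_j`; the inequality of Brascamp and Lieb and a lower
bound for the variances of linear functionals give the inequality for all their linear images, with
the constant `κ` (modules `Run7.h444.WC1` to `WC4`): so the hypothesis of the starting file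
`GibbsLevelSets` is verified for this class; the passage from Gibbs densities to level sets is the one
of that file (modules `N483.KM`), and the passage to central sections is that of `ImagesOfSections`
(module `Y151.PV.Hyp`).
-/

set_option autoImplicit false

namespace Pool.Agent.Results.MP_dc1397_gt.ConditionedLevelSets

open MeasureTheory Set
open scoped ENNReal InnerProductSpace

/-- Euclidean space of dimension `n` -/
abbrev Euc (n : ℕ) : Type := EuclideanSpace ℝ (Fin n)

/-- `S - ‖A x‖²/2` and `κ ‖A x‖²/2 - S` are convex: `S` has condition number at most `κ` relative to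
the quadratic form `‖A x‖²` (which may be degenerate) -/
structure Conditioned (κ : ℝ) {m k : ℕ} (A : Euc m →ₗ[ℝ] Euc k) (S : Euc m → ℝ) : Prop where
  lower : ConvexOn ℝ univ fun x => S x - ‖A x‖ ^ 2 / 2
  upper : ConvexOn ℝ univ fun x => κ * (‖A x‖ ^ 2 / 2) - S x

/-- `K = {x | S_j(x) ≤ e_j for all j < r}`, bounded, with a point where all inequalities are strict,
for functions `S_j ≥ 0` of condition number at most `κ` relative to some quadratic forms -/
def ConditionedLevelSet (κ : ℝ) (r : ℕ) {m : ℕ} (K : Set (Euc m)) : Prop :=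
  ∃ (k : Fin r → ℕ) (A : ∀ j, Euc m →ₗ[ℝ] Euc (k j)) (S : Fin r → Euc m → ℝ) (e : Fin r → ℝ),
    (∀ j, Conditioned κ (A j) (S j)) ∧ (∀ j x, 0 ≤ S j x) ∧ (∃ x, ∀ j, S j x < e j) ∧
    K = {x | ∀ j, S j x ≤ e j} ∧ Bornology.IsBounded K

/-- the Lebesgue measure of a Euclidean space -/
noncomputable def lebesgue (F : Type) [NormedAddCommGroup F] [InnerProductSpace ℝ F]
    [FiniteDimensional ℝ F] [MeasurableSpace F] [BorelSpace F] : Measure F := volume

/-- the Lebesgue measure (of the Euclidean space `W`) of the section `Ω ∩ W` by a subspace `W` -/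
noncomputable def areaIn {F : Type} [NormedAddCommGroup F] [InnerProductSpace ℝ F]
    [FiniteDimensional ℝ F] [MeasurableSpace F] [BorelSpace F] (W : Submodule ℝ F) (Ω : Set F) :
    ℝ≥0∞ := lebesgue W {y : W | (y : F) ∈ Ω}

section defs

variable {κ : Type} [Fintype κ]

open Classical in
/-- divergence of a vector field on `ℝ^κ` -/
noncomputable def divergence (X : EuclideanSpace ℝ κ → EuclideanSpace ℝ κ)
    (x : EuclideanSpace ℝ κ) : ℝ :=
  ∑ i, fderiv ℝ X x (EuclideanSpace.single i 1) i

/-- `C¹` vector fields with compact support in `Ω` and `‖X‖ ≤ 1` -/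
structure Test (Ω : Set (EuclideanSpace ℝ κ)) (X : EuclideanSpace ℝ κ → EuclideanSpace ℝ κ) :
    Prop where
  diff : ContDiff ℝ 1 X
  comp : HasCompactSupport X
  sub : tsupport X ⊆ Ω
  le : ∀ x, ‖X x‖ ≤ 1

/-- the (De Giorgi) perimeter `P(E; Ω)` of `E` relative to the open set `Ω` -/
noncomputable def perimeter (E Ω : Set (EuclideanSpace ℝ κ)) : ℝ≥0∞ :=
  ⨆ (X : EuclideanSpace ℝ κ → EuclideanSpace ℝ κ) (_ : Test Ω X),
    ENNReal.ofReal (∫ x in E, divergence X x)

/-- the area (Lebesgue measure in the hyperplane `a^⊥`) of the central section of `Ω` by `a^⊥` -/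
noncomputable def sectionArea (Ω : Set (EuclideanSpace ℝ κ)) (a : EuclideanSpace ℝ κ) : ℝ≥0∞ :=
  areaIn (Submodule.span ℝ {a})ᗮ Ω

/-- some central hyperplane section has area at most `C P(E; Ω)` for every measurable `E ⊆ Ω` with
`|E| = |Ω| / 2` -/
def HyperplaneBound (C : ℝ) (Ω : Set (EuclideanSpace ℝ κ)) : Prop :=
  ∃ a : EuclideanSpace ℝ κ, a ≠ 0 ∧ ∀ E : Set (EuclideanSpace ℝ κ), MeasurableSet E → E ⊆ Ω →
    volume E = volume Ω / 2 → sectionArea Ω a ≤ ENNReal.ofReal C * perimeter E Ω

/-- the perimeter is the one used in the proof -/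
theorem perimeter_eq (E Ω : Set (EuclideanSpace ℝ κ)) :
    Pool.Agent.W695.KH.per E Ω = perimeter E Ω := by
  unfold perimeter Pool.Agent.W695.KH.per
  refine iSup_congr fun X => ?_
  refine iSup_congr_Prop ⟨fun h => ⟨h.1, h.2.1, h.2.2.1, h.2.2.2⟩,
    fun h => ⟨h.diff, h.comp, h.sub, h.le⟩⟩ fun _ => rfl

end defs

theorem affine_eq {m n : ℕ} (T : Euc m →ᵃ[ℝ] Euc n) (K : Set (Euc m)) :
    T '' K = (fun x => T 0 + T.linear x) '' K := by
  refine image_congr fun x _ => ?_
  have h := T.map_vadd 0 x
  rw [vadd_eq_add, add_zero] at h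
  rw [h, vadd_eq_add, add_comm]

/-- the functional inequality for affine images, for the class `ConditionedLevelSet κ r` -/
theorem star_of (κ : ℝ) (r p : ℕ) (hκ : 0 ≤ κ) : ∃ c : ℝ, 0 < c ∧
    ∀ (m n : ℕ) (K : Set (Euc m)) (T : Euc m →ᵃ[ℝ] Euc n), 1 ≤ n → ConditionedLevelSet κ r K →
    m ≤ n + p → Function.Surjective T → IsCompact (T '' K) ∧ Convex ℝ (T '' K) ∧
    (interior (T '' K)).Nonempty ∧
    Pool.Agent.Y506.RG.Star c (Pool.Agent.Y506.PV.ind (T '' K)) := by
  obtain ⟨c, hc, H⟩ := Pool.Agent.N483.KM.micro_star (fun _ => κ) r 0 p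
  refine ⟨c, hc, fun m n K T hn hK hm hT => ?_⟩
  have hT' : Function.Surjective T.linear := by rwa [AffineMap.linear_surjective_iff]
  have hmn : n ≤ m := by
    have h1 := LinearMap.finrank_le_finrank_of_surjective hT'
    simpa using h1
  obtain ⟨kk, A, S, e, h1, h2, h3, h4, h5⟩ := hK
  have hCL : Run7.h444.CL κ S A e K := ⟨fun j => (h1 j).lower, fun j => (h1 j).upper, h2, h5, h3, h4⟩
  have h6 := H m n _ T.linear (T 0) (hCL.micro hκ (hn.trans hmn)) hm hT'
  rw [← affine_eq] at h6
  exact h6

/-- **The hyperplane form of the KLS conjecture for few convex functions of bounded condition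
number.** For all `κ ≥ 0`, `r` and `p` there is `C > 0` such that for all `m`, `n ≥ 1`, all bodies
`K = {x | S_j(x) ≤ e_j, j < r}` in `ℝ^m` of the class `ConditionedLevelSet κ r` and all affine maps `T` of
`ℝ^m` onto `ℝⁿ`, `m ≤ n + p`, for which `T '' K` is symmetric, the interior `Ω` of `T '' K` has a central
hyperplane section `Ω ∩ a^⊥` with `H_{n-1}(Ω ∩ a^⊥) ≤ C P(E; Ω)` for every measurable `E ⊆ Ω` with
`|E| = |Ω| / 2`. -/
theorem result : ∀ (κ : ℝ) (r p : ℕ), 0 ≤ κ → ∃ C : ℝ, 0 < C ∧
    ∀ (m n : ℕ) (K : Set (Euc m)) (T : Euc m →ᵃ[ℝ] Euc n), 1 ≤ n → ConditionedLevelSet κ r K →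
    m ≤ n + p → Function.Surjective T → (∀ x ∈ T '' K, -x ∈ T '' K) →
    HyperplaneBound C (interior (T '' K)) := by
  intro κ r p hκ
  obtain ⟨c, hc, H⟩ := star_of κ r p hκ
  obtain ⟨C, hC, H'⟩ := Pool.Agent.Y151.PV.hyp
  refine ⟨C * c, by positivity, fun m n K T hn hK hm hT hs => ?_⟩
  obtain ⟨h1, h2, h3, h4⟩ := H m n K T hn hK hm hT
  obtain ⟨P, hP⟩ : ∃ P : Set (Euc n), P = T '' K := ⟨_, rfl⟩
  rw [← hP] at h1 h2 h3 h4 hs ⊢
  have hcl : closure (interior P) = P := by
    rw [h2.closure_interior_eq_closure_of_nonempty_interior h3, h1.isClosed.closure_eq]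
  have hsi : ∀ x ∈ interior P, -x ∈ interior P := by
    intro x hx
    have hop : IsOpen ((fun y => -y) ⁻¹' interior P) := isOpen_interior.preimage continuous_neg
    have hsub : (fun y => -y) ⁻¹' interior P ⊆ P := by
      intro y hy
      have := hs _ (interior_subset hy)
      rwa [neg_neg] at this
    exact interior_maximal hsub hop (by simpa using hx)
  have h0 : (0 : Euc n) ∈ interior P := by
    obtain ⟨x, hx⟩ := h3
    have h := h2.interior hx (hsi x hx) (by norm_num : (0 : ℝ) ≤ 1 / 2)
      (by norm_num : (0 : ℝ) ≤ 1 / 2) (by norm_num)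
    rwa [smul_neg, add_neg_cancel] at h
  obtain ⟨a, ha, h⟩ := H' n hn (interior P) isOpen_interior h2.interior
    (h1.isBounded.subset interior_subset) h0 hsi c hc (by rw [hcl]; exact h4)
  refine ⟨a, ha, fun E hE hEΩ hvol => ?_⟩
  rw [← perimeter_eq]
  by_cases hp : Pool.Agent.W695.KH.per E (interior P) = ⊤
  · rw [hp, ENNReal.mul_top (ENNReal.ofReal_pos.2 (by positivity)).ne']
    exact le_top
  · refine (h E hE hEΩ hvol _ (Pool.Agent.W695.KH.perLe_toReal E _ hp)).trans (le_of_eq ?_)
    rw [ENNReal.ofReal_mul (by positivity), ENNReal.ofReal_toReal hp]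

/-- intersections of `r` ellipsoids and elliptic cylinders -/
theorem ellipsoids (r m : ℕ) (k : Fin r → ℕ) (A : ∀ j, Euc m →ₗ[ℝ] Euc (k j))
    (b : ∀ j, Euc (k j)) (K : Set (Euc m)) (hK : K = {x | ∀ j, ‖A j x + b j‖ ≤ 1})
    (hb : Bornology.IsBounded K) (hx : ∃ x, ∀ j, ‖A j x + b j‖ < 1) :
    ConditionedLevelSet 1 r K := by
  have hA : ∀ j x, ‖(Real.sqrt 2 • A j) x‖ ^ 2 / 2 = ‖A j x‖ ^ 2 := by
    intro j x
    rw [LinearMap.smul_apply, norm_smul, mul_pow, Real.norm_of_nonneg (Real.sqrt_nonneg _),
      Real.sq_sqrt (by norm_num)]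
    ring
  have he : ∀ j x, ‖A j x + b j‖ ^ 2 - ‖A j x‖ ^ 2 = 2 * ⟪A j x, b j⟫_ℝ + ‖b j‖ ^ 2 := by
    intro j x
    rw [@norm_add_sq_real]
    ring
  refine ⟨k, fun j => Real.sqrt 2 • A j, fun j x => ‖A j x + b j‖ ^ 2, fun _ => 1,
    fun j => ⟨?_, ?_⟩, fun j x => sq_nonneg _, ?_, ?_, hb⟩
  · simp only [hA, he]
    refine ⟨convex_univ, fun x _ y _ a c ha hc hac => le_of_eq ?_⟩
    simp only [smul_eq_mul, map_add, map_smul, inner_add_left, inner_smul_left, conj_trivial]
    have : c = 1 - a := by linarith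
    rw [this]
    ring
  · simp only [hA, one_mul]
    have he' : ∀ x, ‖A j x‖ ^ 2 - ‖A j x + b j‖ ^ 2 = -(2 * ⟪A j x, b j⟫_ℝ + ‖b j‖ ^ 2) := by
      intro x
      rw [← he]
      ring
    simp only [he']
    refine ⟨convex_univ, fun x _ y _ a c ha hc hac => le_of_eq ?_⟩
    simp only [smul_eq_mul, map_add, map_smul, inner_add_left, inner_smul_left, conj_trivial]
    have : c = 1 - a := by linarith
    rw [this]
    ring
  · obtain ⟨x, hx⟩ := hx
    exact ⟨x, fun j => (sq_lt_one_iff₀ (norm_nonneg _)).2 (hx j)⟩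
  · rw [hK]
    ext x
    simp only [mem_ofPred_eq]
    exact forall_congr' fun j => (sq_le_one_iff₀ (norm_nonneg _)).symm

end Pool.Agent.Results.MP_dc1397_gt.ConditionedLevelSets
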