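import Pool.Agent.Run7.h434.EP.Fin3

/-!
# The hyperplane conjecture of Kannan, Lovasz and Simonovits for edge powers of symmetric bodies

`L = -L` an open bounded convex set in `ℝ^d`, `‖·‖_L` the norm with the unit ball `L`, `G` any graph with
`n` vertices (loops are allowed). The edge power

`K = {z ∈ (ℝ^d)^n : ‖z_v‖_L < 1 for all v, ‖z_v‖_L^d + ‖z_w‖_L^d < 1 for all edges v w}`

is a symmetric convex body in `ℝ^(nd)`; for `d = 1` it is the unconditional body `|z_v| < 1`,
`|z_v| + |z_w| < 1`. Theorem: if `L` satisfies the inequality of Kannan, Lovasz and Simonovits in Poincare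
form with the constant `k`, then so does `K` with the constant `C (1 + k)`, and the best central
hyperplane cut of `K` is at most `C √(1 + k)` times the perimeter of any set of half the volume;
`C` is absolute: it does not depend on the graph, on `n`, `d` and `L`. Without any hypothesis on `L`: the
hyperplane conjecture holds for all edge powers of all symmetric bodies in `ℝ^d`, for all graphs, with a
constant which depends only on `d` (`C 2^d`), and with an absolute constant for the edge powers of the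
cubes `(-1, 1)^d`, all `d`.

Method. `x_v = ‖z_v‖_L^d` is uniform on the fractional stable set polytope of `G`. The radial part of the
variance is bounded by the Poincare inequality of helper523 (`Run7.h523.KF`, an `L²` argument for
signed adjacent transpositions) with the weight `(1 - y²)²`, `y = 2x - 1`, the rest by the Poincare
inequality of the fibres, which are dilates of `L`; the largest variance by polar coordinates and the
volume of the polytope; then the implication from Poincare to Cheeger inequalities and the bounds for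
central sections of the starting files (`W695.KH`, `R972.OP`, `R310.OP2`, `R656.OP2`).

Pieces by helpers 13, 64, 117, 586, 803, 842, 942, 999 (project `Run7.h434.EP`) and 11, 67, 136, 194, 523,
531, 593, 704, 768, 847, 915 (project `Run7.h523.KF`).
-/

set_option autoImplicit false

namespace Pool.Agent.Results.MP_dc1397_gt.EdgePowers

open MeasureTheory Set
open scoped ENNReal InnerProductSpace

/-- the Lebesgue measure of a Euclidean space -/
noncomputable def lebesgue (F : Type) [NormedAddCommGroup F] [InnerProductSpace ℝ F]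
    [FiniteDimensional ℝ F] [MeasurableSpace F] [BorelSpace F] : Measure F := volume

/-- the Lebesgue measure (of the Euclidean space `W`) of the section `Ω ∩ W` by a subspace `W` -/
noncomputable def areaIn {F : Type} [NormedAddCommGroup F] [InnerProductSpace ℝ F]
    [FiniteDimensional ℝ F] [MeasurableSpace F] [BorelSpace F] (W : Submodule ℝ F) (Ω : Set F) :
    ℝ≥0∞ := lebesgue W {y : W | (y : F) ∈ Ω}

section defs

variable {κ : Type} [Fintype κ]

/-- an open, convex, bounded, nonempty set which is symmetric about the origin -/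
structure SymmDomain (Ω : Set (EuclideanSpace ℝ κ)) : Prop where
  op : IsOpen Ω
  conv : Convex ℝ Ω
  bdd : Bornology.IsBounded Ω
  ne : Ω.Nonempty
  symm : ∀ x ∈ Ω, -x ∈ Ω

open Classical in
/-- divergence of a vector field on `ℝ^κ` -/
noncomputable def divergence (X : EuclideanSpace ℝ κ → EuclideanSpace ℝ κ)
    (x : EuclideanSpace ℝ κ) : ℝ :=
  ∑ i, fderiv ℝ X x (EuclideanSpace.single i 1) i

/-- `C¹` vector fields with compact support in `Ω` and `‖X‖ ≤ 1` -/
structure Test (Ω : Set (EuclideanSpace ℝ κ)) (X : EuclideanSpace ℝ κ → EuclideanSpace ℝ κ) :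
    Prop where
  diff : ContDiff ℝ 1 X
  comp : HasCompactSupport X
  sub : tsupport X ⊆ Ω
  le : ∀ x, ‖X x‖ ≤ 1

/-- the (De Giorgi) perimeter `P(E; Ω)` of `E` relative to the open set `Ω` -/
noncomputable def perimeter (E Ω : Set (EuclideanSpace ℝ κ)) : ℝ≥0∞ :=
  ⨆ (X : EuclideanSpace ℝ κ → EuclideanSpace ℝ κ) (_ : Test Ω X),
    ENNReal.ofReal (∫ x in E, divergence X x)

/-- the area (Lebesgue measure in the hyperplane `a^⊥`) of the central section of `Ω` by `a^⊥` -/
noncomputable def sectionArea (Ω : Set (EuclideanSpace ℝ κ)) (a : EuclideanSpace ℝ κ) : ℝ≥0∞ :=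
  areaIn (Submodule.span ℝ {a})ᗮ Ω

/-- some central hyperplane section has area at most `K P(E; Ω)` for every measurable `E ⊆ Ω` with
`|E| = |Ω| / 2` -/
def HyperplaneBound (K : ℝ) (Ω : Set (EuclideanSpace ℝ κ)) : Prop :=
  ∃ a : EuclideanSpace ℝ κ, a ≠ 0 ∧ ∀ E : Set (EuclideanSpace ℝ κ), MeasurableSet E → E ⊆ Ω →
    volume E = volume Ω / 2 → sectionArea Ω a ≤ ENNReal.ofReal K * perimeter E Ω

/-- the perimeter is the one used in the proof -/
theorem perimeter_eq (E Ω : Set (EuclideanSpace ℝ κ)) :
    Pool.Agent.W695.KH.per E Ω = perimeter E Ω := by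
  unfold perimeter Pool.Agent.W695.KH.per
  refine iSup_congr fun X => ?_
  refine iSup_congr_Prop ⟨fun h => ⟨h.1, h.2.1, h.2.2.1, h.2.2.2⟩,
    fun h => ⟨h.diff, h.comp, h.sub, h.le⟩⟩ fun _ => rfl

/-- the mean of `f` over `D` -/
noncomputable def mean (D : Set (EuclideanSpace ℝ κ)) (f : EuclideanSpace ℝ κ → ℝ) : ℝ :=
  (∫ x in D, f x) / (volume D).toReal

/-- The inequality of Kannan, Lovasz and Simonovits in Poincare form with the constant `k` for the
uniform measure on the symmetric set `Ω`: for all `C¹` functions `Var f ≤ k s E ‖∇ f‖²`, whenever all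
variances `E ⟪θ, x⟫²` of linear functions are at most `s ‖θ‖²`. -/
def KLSPoincare (k : ℝ) (Ω : Set (EuclideanSpace ℝ κ)) : Prop :=
  ∀ s : ℝ, (∀ θ : EuclideanSpace ℝ κ, mean Ω (fun x => ⟪θ, x⟫_ℝ ^ 2) ≤ s * ‖θ‖ ^ 2) →
    ∀ f : EuclideanSpace ℝ κ → ℝ, ContDiff ℝ 1 f →
      mean Ω (fun x => f x ^ 2) - mean Ω f ^ 2 ≤ k * s * mean Ω fun x => ‖fderiv ℝ f x‖ ^ 2

end defs

/-- the vector `z_v ∈ ℝ^d` of a point `z` of `(ℝ^d)^n` -/
noncomputable def vec {n d : ℕ} (z : EuclideanSpace ℝ (Fin n × Fin d)) (v : Fin n) :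
    EuclideanSpace ℝ (Fin d) := WithLp.toLp 2 fun i => z (v, i)

/-- The edge power of `L ⊂ ℝ^d` for the graph (any relation) `adj` on `n` vertices: all `z_v ∈ L`, and
`‖z_v‖^d + ‖z_w‖^d < 1` for `adj v w`, `‖x‖ = gauge L x = inf {r > 0 | x ∈ r L}`. -/
def edgePower {n d : ℕ} (adj : Fin n → Fin n → Prop) (L : Set (EuclideanSpace ℝ (Fin d))) :
    Set (EuclideanSpace ℝ (Fin n × Fin d)) :=
  {z | (∀ v, vec z v ∈ L) ∧ ∀ v w, adj v w → gauge L (vec z v) ^ d + gauge L (vec z w) ^ d < 1}

/-- **The hyperplane conjecture and the Poincare form of the KLS inequality for edge powers.** There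
is an absolute constant `C` such that for all `n, d ≥ 1`, all graphs on `n` vertices and all symmetric
open bounded convex sets `L ⊂ ℝ^d` the edge power `K` is a symmetric open bounded convex set, and:
(1) if `L` satisfies the KLS inequality in Poincare form with the constant `k` then `K` satisfies it with
the constant `C (1 + k)`, and `H_{nd-1}(K ∩ a^⊥) ≤ C √(1 + k) P(E; K)` for some `a ≠ 0` and all
measurable `E ⊆ K` with `|E| = |K| / 2`; (2) without hypotheses the last inequality holds with
`C 2^d`; (3) for `L = (-1, 1)^d` it holds with `C`. -/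
theorem result : ∃ C : ℝ, 0 < C ∧ ∀ n d : ℕ, 1 ≤ n → 1 ≤ d →
    ∀ (adj : Fin n → Fin n → Prop) (L : Set (EuclideanSpace ℝ (Fin d))), SymmDomain L →
    SymmDomain (edgePower adj L) ∧
    (∀ k : ℝ, 0 ≤ k → KLSPoincare k L → KLSPoincare (C * (1 + k)) (edgePower adj L) ∧
      HyperplaneBound (C * Real.sqrt (1 + k)) (edgePower adj L)) ∧
    HyperplaneBound (C * 2 ^ d) (edgePower adj L) ∧
    (L = {x | ∀ i, |x i| < 1} → HyperplaneBound C (edgePower adj L)) := by
  obtain ⟨C, hC, H⟩ := Run7.h434.EP.final
  refine ⟨C, hC, fun n d hn hd adj L hL => ?_⟩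
  have : Nonempty (Fin d) := ⟨⟨0, hd⟩⟩
  have h0 : (0 : EuclideanSpace ℝ (Fin d)) ∈ L := by
    obtain ⟨x, hx⟩ := hL.ne
    have h1 := hL.conv hx (hL.symm x hx) (by norm_num : (0 : ℝ) ≤ 1 / 2)
      (by norm_num : (0 : ℝ) ≤ 1 / 2) (by norm_num)
    simpa using h1
  have he : edgePower adj L = Run7.h434.EP.epo adj L := by
    have h1 : ∀ x : EuclideanSpace ℝ (Fin d), gauge L x < 1 ↔ x ∈ L := fun x =>
      Set.ext_iff.1 (gauge_lt_one_eq_self_of_isOpen hL.conv h0 hL.op) x
    ext z
    unfold edgePower Run7.h434.EP.epo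
    simp only [mem_ofPred_eq, Fintype.card_fin, h1]
    rfl
  obtain ⟨g, h1, h2, h3⟩ := H n (Fin d) adj L hn hL.op hL.conv hL.bdd h0 hL.symm
  have hb : ∀ K : ℝ, Run7.h434.EP.HB K (Run7.h434.EP.epo adj L) →
      HyperplaneBound K (edgePower adj L) := by
    rintro K ⟨a, ha, h⟩
    rw [he]
    refine ⟨a, ha, fun E hE hEΩ hvol => ?_⟩
    have h4 := h E hE hEΩ hvol
    rw [perimeter_eq] at h4
    exact h4
  refine ⟨?_, fun k hk hp => ?_, ?_, fun hc => ?_⟩
  · rw [he]
    exact ⟨g.1, g.2.1, g.2.2.1, g.2.2.2.1, g.2.2.2.2⟩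
  · obtain ⟨h4, h5⟩ := h1 k hk hp
    refine ⟨?_, hb _ h5⟩
    rw [he]
    exact h4
  · refine hb _ ?_
    rw [Fintype.card_fin] at h2
    exact h2
  · exact hb _ (h3 hc)

end Pool.Agent.Results.MP_dc1397_gt.EdgePowers
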