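import Pool.Agent.Run7.h444.SR.H

/-!
# The hyperplane conjecture of KLS from the concentration of symmetric (and reflection-invariant) sets

Let `Ω = -Ω ⊂ ℝⁿ` be a bounded open convex set which is invariant under the reflections
`σ_j x = x - 2 ⟪e_j, x⟫ e_j` of an orthonormal family `e_1, …, e_q`, `0 ≤ q ≤ n` (`q = 0`: no condition besides
`Ω = -Ω`; `q = n`: unconditional bodies). There are absolute constants `p, C > 0` such that the following
holds for all `n, q, Ω` and `D ≥ 0`. Put `r = D |Ω| / H_{n-1}(Ω ∩ b^⊥)` for the smallest central section. If all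
Borel sets `S ⊆ Ω` with `|S| ≥ |Ω| / 2` which satisfy `S = -S` and `σ_j S = S` for all `j` fill all but the share `p`
of `Ω` at the distance `r`, that is `|Ω \ S_r| ≤ p |Ω|`, then

  `inf_a H_{n-1}(Ω ∩ a^⊥) ≤ C (1 + D) P(E; Ω)` for ALL measurable sets `E ⊆ Ω` of half volume,

in particular for the isoperimetric sets `E`. So Q1 holds exactly for those families of symmetric bodies
for which the symmetric sets of half volume spread in this sense with a bounded `D`, at one distance and
one level `p` (for the converse: Q1 and the concavity of the isoperimetric profile give such a `D` for all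
sets). The test sets are never halves `{⟪a, x⟫ > 0}`, and for unconditional bodies they are determined by
their intersection with the positive part of `Ω`, whose share of the volume is `2^{-n}`.

Proof. Let `μ` be uniform on `Ω`, `P f(y) = E (f(X) | X + √h Z = y)` (`X` of law `μ`, `Z` Gaussian), and
`s` the largest variance; `√s` is `|Ω|` divided by the smallest central section up to constants.
(1) Functions `f`, `|f| ≤ 1`, which are even and invariant under the `σ_j`: `P* P f` is of the same kind, with
`‖∇ (P* P f)‖ ≤ h^{-1/2}`, so the concentration of the test sets gives `Var f ≤ δ + A E ‖∇ f‖²`, `A = 4 r² / δ`.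
(2) Even functions `f`: `f` is the sum of `2^q` functions `F_a` which are even, and even or odd for each `σ_j`.
The `|F_a|` are functions as in (1); if `F_a` is odd for `σ_j` then `(E |F_a|)² ≤ 2 T² E ‖∇ F_a‖² + 2 s T⁻² E F_a²` by
the fundamental theorem of calculus on the segments towards `e_j^⊥`. A weak Poincare inequality for
families (random signs, truncation, fourth moments) and `∑ F_a² ≤ 1` give
`Var f ≤ δ₀ + C (r² + s) E ‖∇ f‖²`, without loss in `q`.
(3) All functions: for odd `f` the gradient of `v = P* P f` is an even field, and the discrete inequality of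
Bochner, `E ‖∇ v‖² + h E ‖D² v‖² ≤ E ‖∇ f‖²`, with (2) for vector fields gives `E ‖∇ v‖² ≤ E ‖∇ f‖² / 2 + η L²`. The
concentration radius `R` of all sets can be halved as long as `R² ≥ C (r² + s)`.
(4) The weak Poincare inequality implies the bound for the perimeter (starting library `W695.KH`: `body`,
`perim`; Ledoux's argument for a discrete heat flow).
-/

set_option autoImplicit false

namespace Pool.Agent.Results.MP_dc1397_gt.InvariantConcentration

open MeasureTheory Set
open scoped ENNReal InnerProductSpace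

/-- Euclidean space of dimension `n` -/
abbrev Euc (n : ℕ) : Type := EuclideanSpace ℝ (Fin n)

/-- the reflection in the hyperplane orthogonal to the unit vector `e` -/
noncomputable def refl {n : ℕ} (e x : Euc n) : Euc n := x - (2 * ⟪e, x⟫_ℝ) • e

/-- bounded open convex sets `Ω = -Ω` which are invariant under the reflections in the hyperplanes
orthogonal to the vectors `e_1, …, e_q` of an orthonormal family -/
structure ReflectionDomain {n q : ℕ} (Ω : Set (Euc n)) (e : Fin q → Euc n) : Prop where
  isOpen : IsOpen Ω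
  conv : Convex ℝ Ω
  bdd : Bornology.IsBounded Ω
  nonempty : Ω.Nonempty
  symm : ∀ x ∈ Ω, -x ∈ Ω
  orth : Orthonormal ℝ e
  inv : ∀ j, ∀ x ∈ Ω, refl (e j) x ∈ Ω

/-- each Borel set `S ⊆ Ω` with `|S| ≥ |Ω| / 2` which is symmetric, `S = -S`, and invariant under the
reflections of all `e_j` satisfies `|Ω \ S_r| ≤ p |Ω|`, `S_r` the open `r`-neighbourhood -/
def InvariantSetsSpread {n q : ℕ} (Ω : Set (Euc n)) (e : Fin q → Euc n) (p r : ℝ) : Prop :=
  ∀ S : Set (Euc n), MeasurableSet S → S ⊆ Ω → (∀ x ∈ S, -x ∈ S) →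
    (∀ j, ∀ x ∈ S, refl (e j) x ∈ S) → volume Ω / 2 ≤ volume S →
    volume (Ω \ Metric.thickening r S) ≤ ENNReal.ofReal p * volume Ω

/-- the Lebesgue measure of a Euclidean space -/
noncomputable def lebesgue (F : Type) [NormedAddCommGroup F] [InnerProductSpace ℝ F]
    [FiniteDimensional ℝ F] [MeasurableSpace F] [BorelSpace F] : Measure F := volume

/-- the Lebesgue measure (of the Euclidean space `W`) of the section `Ω ∩ W` by a subspace `W` -/
noncomputable def areaIn {F : Type} [NormedAddCommGroup F] [InnerProductSpace ℝ F]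
    [FiniteDimensional ℝ F] [MeasurableSpace F] [BorelSpace F] (W : Submodule ℝ F) (Ω : Set F) :
    ℝ≥0∞ := lebesgue W {y : W | (y : F) ∈ Ω}

/-- the area (Lebesgue measure in the hyperplane `a^⊥`) of the central section of `Ω` by `a^⊥` -/
noncomputable def sectionArea {n : ℕ} (Ω : Set (Euc n)) (a : Euc n) : ℝ≥0∞ :=
  areaIn (Submodule.span ℝ {a})ᗮ Ω

section defs

variable {κ : Type} [Fintype κ]

open Classical in
/-- divergence of a vector field on `ℝ^κ` -/
noncomputable def divergence (X : EuclideanSpace ℝ κ → EuclideanSpace ℝ κ)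
    (x : EuclideanSpace ℝ κ) : ℝ :=
  ∑ i, fderiv ℝ X x (EuclideanSpace.single i 1) i

/-- `C¹` vector fields with compact support in `Ω` and `‖X‖ ≤ 1` -/
structure Test (Ω : Set (EuclideanSpace ℝ κ)) (X : EuclideanSpace ℝ κ → EuclideanSpace ℝ κ) :
    Prop where
  diff : ContDiff ℝ 1 X
  comp : HasCompactSupport X
  sub : tsupport X ⊆ Ω
  le : ∀ x, ‖X x‖ ≤ 1

/-- the (De Giorgi) perimeter `P(E; Ω)` of `E` relative to the open set `Ω` -/
noncomputable def perimeter (E Ω : Set (EuclideanSpace ℝ κ)) : ℝ≥0∞ :=
  ⨆ (X : EuclideanSpace ℝ κ → EuclideanSpace ℝ κ) (_ : Test Ω X),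
    ENNReal.ofReal (∫ x in E, divergence X x)

/-- the perimeter is the one used in the proof -/
theorem perimeter_eq (E Ω : Set (EuclideanSpace ℝ κ)) :
    Pool.Agent.W695.KH.per E Ω = perimeter E Ω := by
  unfold perimeter Pool.Agent.W695.KH.per
  refine iSup_congr fun X => ?_
  refine iSup_congr_Prop ⟨fun h => ⟨h.1, h.2.1, h.2.2.1, h.2.2.2⟩,
    fun h => ⟨h.diff, h.comp, h.sub, h.le⟩⟩ fun _ => rfl

end defs

/-- **Central sections and the spreading of invariant sets.** There are absolute constants `p, C > 0`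
such that: let `Ω = -Ω ⊂ ℝⁿ`, `n ≥ 1`, be bounded, open, convex and invariant under the reflections of the
orthonormal family `e_1, …, e_q`, and let `r > 0`, `D ≥ 0` be such that `r H_{n-1}(Ω ∩ b^⊥) ≤ D |Ω|` for some central
section. If the invariant symmetric sets spread at the distance `r` up to the share `p`, then
some central section has the area `H_{n-1}(Ω ∩ a^⊥) ≤ C (1 + D) P(E; Ω)` for every measurable `E ⊆ Ω` with
`|E| = |Ω| / 2`. -/
theorem result : ∃ p C : ℝ, 0 < p ∧ 0 < C ∧ ∀ (n q : ℕ) (Ω : Set (Euc n)) (e : Fin q → Euc n),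
    1 ≤ n → ReflectionDomain Ω e → ∀ r D : ℝ, 0 < r → 0 ≤ D →
    (∃ b : Euc n, b ≠ 0 ∧ ENNReal.ofReal r * sectionArea Ω b ≤ ENNReal.ofReal D * volume Ω) →
    InvariantSetsSpread Ω e p r →
    ∃ a : Euc n, a ≠ 0 ∧ ∀ E : Set (Euc n), MeasurableSet E → E ⊆ Ω →
      volume E = volume Ω / 2 → sectionArea Ω a ≤ ENNReal.ofReal (C * (1 + D)) * perimeter E Ω := by
  obtain ⟨p, C, hp, hC, H⟩ := Run7.h444.SR.main
  refine ⟨p, C, hp, hC, fun n q Ω e hn hΩ r D hr hD hb hS => ?_⟩
  obtain ⟨a, ha, h⟩ := H n q hn Ω hΩ.isOpen hΩ.conv hΩ.bdd hΩ.nonempty hΩ.symm e hΩ.orth hΩ.inv r D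
    hr hD hb hS
  refine ⟨a, ha, fun E hE hEΩ hvol => ?_⟩
  rw [← perimeter_eq]
  exact h E hE hEΩ hvol

end Pool.Agent.Results.MP_dc1397_gt.InvariantConcentration
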