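import Pool.Agent.Run7.h110.KLS.Sym

/-!
# Symmetric sets and central hyperplanes: the hyperplane form of the KLS conjecture

For all open bounded convex `Ω = -Ω` in `ℝⁿ`, and all measurable `E ⊆ Ω` with `|E| = |Ω| / 2`,

  `P(E; Ω) ≥ c min (inf_a H_{n-1}(Ω ∩ a^⊥), |Ω| h_Sym(Ω))`

with an absolute constant `c > 0`, where `h_Sym(Ω)` is the Cheeger constant of `Ω` for the symmetric
sets `S = -S`. So Q1 for `Ω` (with some constant) follows from the inequality
`inf_a H_{n-1}(Ω ∩ a^⊥) ≤ D |Ω| h_Sym(Ω)` for the symmetric subsets of `Ω`: the sets which are not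
symmetric need not be considered.

The theorem is the one of helper444 for `MP_6d896a_gt` (`SymmetricSets`), for the central hyperplane
sections of this problem. Proof. (1) By the coarea inequality and the inequality of Cheeger for the
level sets of even functions, `Var f ≤ L E ‖∇ f‖²` for even `f`, with `L = 4 / h_Sym²`. (2) By a
discrete form of the inequality of Bochner the same follows for odd functions with the constant
`4 L + 8 ‖A‖`, `A` the covariance matrix (modules `Run7.h444.ER1` to `ER5`). (3) The sections by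
`u^⊥` are not smaller than `|Ω| / (8 ‖A‖^{1/2})`, and the one by `a^⊥`, with `a` the direction of
maximal variance, is at most `C |Ω| / ‖A‖^{1/2}`. (4) The passage from the Poincare inequality to the
perimeter of the sets of measure one half is the one of the starting files `W695.KH`, `Y151.PV`.
-/

set_option autoImplicit false

namespace Pool.Agent.Results.MP_dc1397_gt.SymmetricSets

open MeasureTheory Set
open scoped ENNReal InnerProductSpace

/-- Euclidean space of dimension `n` -/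
abbrev Euc (n : ℕ) : Type := EuclideanSpace ℝ (Fin n)

/-- the Lebesgue measure of a Euclidean space -/
noncomputable def lebesgue (F : Type) [NormedAddCommGroup F] [InnerProductSpace ℝ F]
    [FiniteDimensional ℝ F] [MeasurableSpace F] [BorelSpace F] : Measure F := volume

/-- the Lebesgue measure (of the Euclidean space `W`) of the section `Ω ∩ W` by a subspace `W` -/
noncomputable def areaIn {F : Type} [NormedAddCommGroup F] [InnerProductSpace ℝ F]
    [FiniteDimensional ℝ F] [MeasurableSpace F] [BorelSpace F] (W : Submodule ℝ F) (Ω : Set F) :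
    ℝ≥0∞ := lebesgue W {y : W | (y : F) ∈ Ω}

section defs

variable {κ : Type} [Fintype κ]

open Classical in
/-- divergence of a vector field on `ℝ^κ` -/
noncomputable def divergence (X : EuclideanSpace ℝ κ → EuclideanSpace ℝ κ)
    (x : EuclideanSpace ℝ κ) : ℝ :=
  ∑ i, fderiv ℝ X x (EuclideanSpace.single i 1) i

/-- `C¹` vector fields with compact support in `Ω` and `‖X‖ ≤ 1` -/
structure Test (Ω : Set (EuclideanSpace ℝ κ)) (X : EuclideanSpace ℝ κ → EuclideanSpace ℝ κ) :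
    Prop where
  diff : ContDiff ℝ 1 X
  comp : HasCompactSupport X
  sub : tsupport X ⊆ Ω
  le : ∀ x, ‖X x‖ ≤ 1

/-- the (De Giorgi) perimeter `P(E; Ω)` of `E` relative to the open set `Ω` -/
noncomputable def perimeter (E Ω : Set (EuclideanSpace ℝ κ)) : ℝ≥0∞ :=
  ⨆ (X : EuclideanSpace ℝ κ → EuclideanSpace ℝ κ) (_ : Test Ω X),
    ENNReal.ofReal (∫ x in E, divergence X x)

/-- the area (Lebesgue measure in the hyperplane `a^⊥`) of the central section of `Ω` by `a^⊥` -/
noncomputable def sectionArea (Ω : Set (EuclideanSpace ℝ κ)) (a : EuclideanSpace ℝ κ) : ℝ≥0∞ :=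
  areaIn (Submodule.span ℝ {a})ᗮ Ω

/-- the perimeter is the one used in the proof -/
theorem perimeter_eq (E Ω : Set (EuclideanSpace ℝ κ)) :
    Pool.Agent.W695.KH.per E Ω = perimeter E Ω := by
  unfold perimeter Pool.Agent.W695.KH.per
  refine iSup_congr fun X => ?_
  refine iSup_congr_Prop ⟨fun h => ⟨h.1, h.2.1, h.2.2.1, h.2.2.2⟩,
    fun h => ⟨h.diff, h.comp, h.sub, h.le⟩⟩ fun _ => rfl

/-- the section by `a^⊥` depends only on the direction of `a` -/
theorem sectionArea_eq (Ω : Set (EuclideanSpace ℝ κ)) (a : EuclideanSpace ℝ κ) (ha : a ≠ 0) :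
    sectionArea Ω a = Pool.Agent.W695.KH.sec Ω (‖a‖⁻¹ • a) := by
  have h1 : Submodule.span ℝ {‖a‖⁻¹ • a} = Submodule.span ℝ {a} :=
    Submodule.span_singleton_smul_eq (IsUnit.mk0 _ (inv_ne_zero (norm_ne_zero_iff.2 ha))) a
  have h2 : Pool.Agent.W695.KH.sec Ω (‖a‖⁻¹ • a) =
      areaIn (Submodule.span ℝ {‖a‖⁻¹ • a})ᗮ Ω := rfl
  rw [h2, h1]
  rfl

end defs

section defsn

variable {n : ℕ}

/-- the infimum of the areas of the central hyperplane sections -/
noncomputable def smallestSection (Ω : Set (Euc n)) : ℝ≥0∞ :=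
  ⨅ (a : Euc n) (_ : a ≠ 0), sectionArea Ω a

/-- the boundary measure of `S ⊆ Ω` inside `Ω`: the lower limit, as `ε → 0+`, of
`(|Ω ∩ S_ε| - |S|) / ε`, where `S_ε` is the open `ε`-neighbourhood of `S` -/
noncomputable def content (S Ω : Set (Euc n)) : ℝ≥0∞ :=
  Filter.liminf (fun ε : ℝ => (volume (Ω ∩ Metric.thickening ε S) - volume S) / ENNReal.ofReal ε)
    (nhdsWithin 0 (Set.Ioi 0))

/-- the Cheeger constant of `Ω` for symmetric sets: the infimum of
`content S Ω / min (|S|, |Ω ∖ S|)` over the measurable symmetric sets `S = -S ⊆ Ω` with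
`0 < |S| < |Ω|` -/
noncomputable def cheegerSym (Ω : Set (Euc n)) : ℝ≥0∞ :=
  ⨅ (S : Set (Euc n)) (_ : MeasurableSet S) (_ : S ⊆ Ω) (_ : ∀ x ∈ S, -x ∈ S) (_ : 0 < volume S)
    (_ : volume S < volume Ω), content S Ω / min (volume S) (volume (Ω \ S))

/-- nonempty bounded open convex sets `Ω = -Ω` -/
structure SymmetricDomain (Ω : Set (Euc n)) : Prop where
  isOpen : IsOpen Ω
  conv : Convex ℝ Ω
  bdd : Bornology.IsBounded Ω
  nonempty : Ω.Nonempty
  symm : ∀ x ∈ Ω, -x ∈ Ω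

theorem content_le (Ω : Set (Euc n)) (hΩ : SymmetricDomain Ω) (μ : Measure (Euc n))
    (hμ : μ = (volume (closure Ω))⁻¹ • volume.restrict (closure Ω)) (S : Set (Euc n))
    (hS : MeasurableSet S) :
    (volume Ω)⁻¹ * content (S ∩ Ω) Ω ≤ Run7.h444.ER.bd μ S := by
  have hvc : volume (closure Ω) = volume Ω :=
    measure_congr (Pool.Agent.W932.KH.closure_ae hΩ.isOpen hΩ.conv)
  have hv0 : volume Ω ≠ 0 := (hΩ.isOpen.measure_pos volume hΩ.nonempty).ne'
  have hvt : (volume Ω)⁻¹ ≠ ⊤ := ENNReal.inv_ne_top.2 hv0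
  have hres : ∀ U : Set (Euc n), MeasurableSet U → μ U = (volume Ω)⁻¹ * volume (Ω ∩ U) := by
    intro U hU
    rw [hμ, Measure.smul_apply, hvc, smul_eq_mul,
      Measure.restrict_congr_set (Pool.Agent.W932.KH.closure_ae hΩ.isOpen hΩ.conv),
      Measure.restrict_apply hU, inter_comm]
  unfold content Run7.h444.ER.bd
  rw [← ENNReal.liminf_const_mul_of_ne_top hvt]
  refine Filter.liminf_le_liminf (Filter.Eventually.of_forall fun ε => ?_)
  rw [hres _ Metric.isOpen_thickening.measurableSet, hres _ hS, ← ENNReal.mul_sub fun _ _ => hvt,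
    mul_div_assoc, inter_comm S Ω]
  refine mul_le_mul_right (ENNReal.div_le_div_right (tsub_le_tsub_right (measure_mono ?_) _) _) _
  exact inter_subset_inter_right _ (Metric.thickening_subset_of_subset _ inter_subset_right)

end defsn

/-- **Symmetric sets and central hyperplanes.** There is an absolute constant `c > 0` such that for
all `n ≥ 1`, all nonempty bounded open convex `Ω = -Ω` in `ℝⁿ` and all measurable `E ⊆ Ω` with
`|E| = |Ω| / 2`: `P(E; Ω) ≥ c min (inf_a H_{n-1}(Ω ∩ a^⊥), |Ω| h_Sym(Ω))`. -/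
theorem result : ∃ c : ℝ, 0 < c ∧ ∀ n : ℕ, 1 ≤ n → ∀ Ω : Set (Euc n), SymmetricDomain Ω →
    ∀ E : Set (Euc n), MeasurableSet E → E ⊆ Ω → volume E = volume Ω / 2 →
      ENNReal.ofReal c * min (smallestSection Ω) (volume Ω * cheegerSym Ω) ≤ perimeter E Ω := by
  obtain ⟨C, hC, main⟩ := Run7.h110.KLS.main
  refine ⟨1 / C, by positivity, fun n hn Ω hΩ E hE hEΩ hvolE => ?_⟩
  have hne : Nonempty (Fin n) := ⟨⟨0, by omega⟩⟩
  have h0 : (0 : Euc n) ∈ Ω := by
    obtain ⟨x, hx⟩ := hΩ.nonempty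
    have h := hΩ.conv hx (hΩ.symm x hx) (by norm_num : (0 : ℝ) ≤ 1 / 2)
      (by norm_num : (0 : ℝ) ≤ 1 / 2) (by norm_num)
    rwa [smul_neg, add_neg_cancel] at h
  have hv0 : volume Ω ≠ 0 := (hΩ.isOpen.measure_pos volume hΩ.nonempty).ne'
  have hvt : volume Ω ≠ ⊤ := hΩ.bdd.measure_lt_top.ne
  have hV : 0 < (volume Ω).toReal := ENNReal.toReal_pos hv0 hvt
  obtain ⟨B0, hB0, hB⟩ := Run7.h110.KLS.sec_pos hΩ.isOpen hΩ.conv hΩ.bdd h0 hΩ.symm
  obtain ⟨Cs, -, hs⟩ := Pool.Agent.W695.KH.sec_bound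
  have hunit : ∀ a : Euc n, a ≠ 0 → ‖‖a‖⁻¹ • a‖ = 1 := fun a ha => by
    rw [norm_smul, norm_inv, norm_norm, inv_mul_cancel₀ (norm_ne_zero_iff.2 ha)]
  have hst : smallestSection Ω ≠ ⊤ := by
    obtain ⟨a, ha⟩ : ∃ a : Euc n, a ≠ 0 :=
      ⟨EuclideanSpace.single (Classical.arbitrary (Fin n)) 1, fun h => by
        have := congrArg norm h
        simp at this⟩
    refine ne_top_of_le_ne_top ?_ (iInf₂_le a ha)
    rw [sectionArea_eq Ω a ha]
    exact (hs (Fin n) Ω hΩ.isOpen hΩ.conv hΩ.bdd h0 hΩ.symm _ (hunit a ha)).1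
  obtain ⟨A, hA⟩ : ∃ A, A = (smallestSection Ω).toReal := ⟨_, rfl⟩
  have hAinf : ∀ B : ℝ, (∀ u : Euc n, ‖u‖ = 1 → B ≤ (Pool.Agent.W695.KH.sec Ω u).toReal) →
      B ≤ A := by
    intro B hB
    rw [hA, ← ENNReal.ofReal_le_iff_le_toReal hst]
    refine le_iInf₂ fun a ha => ?_
    rw [sectionArea_eq Ω a ha]
    exact ENNReal.ofReal_le_of_le_toReal (hB _ (hunit a ha))
  have hA0 : 0 < A := lt_of_lt_of_le hB0 (hAinf B0 hB)
  obtain ⟨M, hM⟩ : ∃ M, M = min (smallestSection Ω) (volume Ω * cheegerSym Ω) := ⟨_, rfl⟩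
  rw [← hM]
  by_cases hM0 : M = 0
  · rw [hM0, mul_zero]
    exact bot_le
  have hMt : M ≠ ⊤ := ne_top_of_le_ne_top hst (by rw [hM]; exact min_le_left _ _)
  obtain ⟨m, hm⟩ : ∃ m, m = M.toReal := ⟨_, rfl⟩
  have hm0 : 0 < m := by rw [hm]; exact ENNReal.toReal_pos hM0 hMt
  have hmA : m ≤ A := by
    rw [hm, hA]
    exact ENNReal.toReal_mono hst (by rw [hM]; exact min_le_left _ _)
  have hMm : ENNReal.ofReal m = M := by rw [hm, ENNReal.ofReal_toReal hMt]
  obtain ⟨μ, hμ⟩ : ∃ μ : Measure (Euc n),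
    μ = (volume (closure Ω))⁻¹ • volume.restrict (closure Ω) := ⟨_, rfl⟩
  have hvc : volume (closure Ω) = volume Ω :=
    measure_congr (Pool.Agent.W932.KH.closure_ae hΩ.isOpen hΩ.conv)
  have hres : ∀ U : Set (Euc n), MeasurableSet U → μ U = (volume Ω)⁻¹ * volume (Ω ∩ U) := by
    intro U hU
    rw [hμ, Measure.smul_apply, hvc, smul_eq_mul,
      Measure.restrict_congr_set (Pool.Agent.W932.KH.closure_ae hΩ.isOpen hΩ.conv),
      Measure.restrict_apply hU, inter_comm]
  have hsym : ∀ S : Set (Euc n), MeasurableSet S → (∀ x, x ∈ S → -x ∈ S) →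
      ENNReal.ofReal (A / (A / m * (volume Ω).toReal)) * min (μ S) (μ Sᶜ) ≤
        Run7.h444.ER.bd μ S := by
    intro S hS hsy
    have e1 : A / (A / m * (volume Ω).toReal) = m * ((volume Ω).toReal)⁻¹ := by
      field_simp
    have e2 : ENNReal.ofReal (m * ((volume Ω).toReal)⁻¹) = M * (volume Ω)⁻¹ := by
      rw [ENNReal.ofReal_mul hm0.le, hMm, ENNReal.ofReal_inv_of_pos hV, ENNReal.ofReal_toReal hvt]
    have e3 : Ω ∩ Sᶜ = Ω \ (S ∩ Ω) := by
      ext x
      simp only [mem_inter_iff, mem_compl_iff, mem_sdiff]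
      tauto
    rw [e1, e2, hres S hS, hres Sᶜ hS.compl, e3, inter_comm Ω S]
    refine le_trans ?_ (content_le Ω hΩ μ hμ S hS)
    have e4 : min ((volume Ω)⁻¹ * volume (S ∩ Ω)) ((volume Ω)⁻¹ * volume (Ω \ (S ∩ Ω))) =
        (volume Ω)⁻¹ * min (volume (S ∩ Ω)) (volume (Ω \ (S ∩ Ω))) := by
      rw [mul_min]
    rw [e4]
    have h5 : cheegerSym Ω * min (volume (S ∩ Ω)) (volume (Ω \ (S ∩ Ω))) ≤
        content (S ∩ Ω) Ω := by
      have hSm : MeasurableSet (S ∩ Ω) := hS.inter hΩ.isOpen.measurableSet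
      have hSt : volume (S ∩ Ω) ≠ ⊤ := ne_top_of_le_ne_top hvt (measure_mono inter_subset_right)
      by_cases h6 : volume (S ∩ Ω) = 0
      · rw [h6, min_eq_left (by simp), mul_zero]
        exact bot_le
      by_cases h7 : volume (Ω \ (S ∩ Ω)) = 0
      · rw [h7, min_eq_right (by simp), mul_zero]
        exact bot_le
      have h8 : volume (S ∩ Ω) < volume Ω := by
        refine lt_of_le_of_ne (measure_mono inter_subset_right) fun h => h7 ?_
        rw [measure_sdiff inter_subset_right hSm.nullMeasurableSet hSt, h, tsub_self]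
      have h9 : cheegerSym Ω ≤ content (S ∩ Ω) Ω /
          min (volume (S ∩ Ω)) (volume (Ω \ (S ∩ Ω))) :=
        iInf_le_of_le (S ∩ Ω) (iInf_le_of_le hSm (iInf_le_of_le inter_subset_right
          (iInf_le_of_le (fun x hx => ⟨hsy x hx.1, hΩ.symm x hx.2⟩)
            (iInf_le_of_le (pos_iff_ne_zero.2 h6) (iInf_le_of_le h8 le_rfl)))))
      refine (mul_le_mul_left h9 _).trans ?_
      rw [ENNReal.div_mul_cancel (lt_min (pos_iff_ne_zero.2 h6) (pos_iff_ne_zero.2 h7)).ne'
        (ne_top_of_le_ne_top hSt (min_le_left _ _))]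
    have h10 : M * (volume Ω)⁻¹ ≤ cheegerSym Ω := by
      have h11 : M ≤ volume Ω * cheegerSym Ω := by rw [hM]; exact min_le_right _ _
      calc M * (volume Ω)⁻¹ ≤ volume Ω * cheegerSym Ω * (volume Ω)⁻¹ := mul_le_mul_left h11 _
        _ = volume Ω * (volume Ω)⁻¹ * cheegerSym Ω := by ring
        _ = cheegerSym Ω := by rw [ENNReal.mul_inv_cancel hv0 hvt, one_mul]
    calc M * (volume Ω)⁻¹ * ((volume Ω)⁻¹ * min (volume (S ∩ Ω)) (volume (Ω \ (S ∩ Ω))))
        ≤ cheegerSym Ω * ((volume Ω)⁻¹ * min (volume (S ∩ Ω)) (volume (Ω \ (S ∩ Ω)))) :=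
          mul_le_mul_left h10 _
      _ = (volume Ω)⁻¹ * (cheegerSym Ω * min (volume (S ∩ Ω)) (volume (Ω \ (S ∩ Ω)))) := by ring
      _ ≤ (volume Ω)⁻¹ * content (S ∩ Ω) Ω := mul_le_mul_right h5 _
  obtain ⟨a, ha, hPer⟩ := main n hn Ω hΩ.isOpen hΩ.conv hΩ.bdd h0 hΩ.symm A (A / m) hA0
    ((one_le_div hm0).2 hmA) hAinf μ hμ hsym
  rw [← perimeter_eq]
  by_cases hp : Pool.Agent.W695.KH.per E Ω = ⊤
  · rw [hp]
    exact le_top
  obtain ⟨P, hP⟩ : ∃ P, P = (Pool.Agent.W695.KH.per E Ω).toReal := ⟨_, rfl⟩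
  have h1 := hPer E hE hEΩ hvolE P (by rw [hP]; exact Pool.Agent.W695.KH.perLe_toReal E _ hp)
  have hP0 : 0 ≤ P := by rw [hP]; exact ENNReal.toReal_nonneg
  have h2 : smallestSection Ω ≤ ENNReal.ofReal (C * (A / m) * P) := (iInf₂_le a ha).trans h1
  have h3 : A ≤ C * (A / m) * P := by
    rw [hA]
    exact ENNReal.toReal_le_of_le_ofReal (by positivity) (by rw [← hA]; exact h2)
  have h4 : m / C ≤ P := by
    rw [div_le_iff₀ hC]
    have h5 : A * m ≤ A * (P * C) := by
      have h6 := mul_le_mul_of_nonneg_right h3 hm0.le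
      have h7 : C * (A / m) * P * m = A * (P * C) := by
        field_simp
      rwa [h7] at h6
    exact le_of_mul_le_mul_left h5 hA0
  rw [← ENNReal.ofReal_toReal hp, ← hP, ← hMm, ← ENNReal.ofReal_mul (by positivity)]
  refine ENNReal.ofReal_le_ofReal (le_trans (le_of_eq ?_) h4)
  ring

/-- Q1 for `Ω` from the symmetric sets: there is an absolute constant `C > 0` such that if
`inf_a H_{n-1}(Ω ∩ a^⊥) ≤ D |Ω| h_Sym(Ω)` with `D ≥ 1`, then
`inf_a H_{n-1}(Ω ∩ a^⊥) ≤ C D P(E; Ω)` for all measurable `E ⊆ Ω` with `|E| = |Ω| / 2`. -/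
theorem hyperplane : ∃ C : ℝ, 0 < C ∧ ∀ n : ℕ, 1 ≤ n → ∀ Ω : Set (Euc n), SymmetricDomain Ω →
    ∀ D : ℝ, 1 ≤ D → smallestSection Ω ≤ ENNReal.ofReal D * (volume Ω * cheegerSym Ω) →
    ∀ E : Set (Euc n), MeasurableSet E → E ⊆ Ω → volume E = volume Ω / 2 →
      smallestSection Ω ≤ ENNReal.ofReal (C * D) * perimeter E Ω := by
  obtain ⟨c, hc, H⟩ := result
  refine ⟨1 / c, by positivity, fun n hn Ω hΩ D hD hs E hE hEΩ hvol => ?_⟩
  have hD0 : 0 < D := by linarith
  have h1 := H n hn Ω hΩ E hE hEΩ hvol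
  have h2 : smallestSection Ω ≤
      ENNReal.ofReal D * min (smallestSection Ω) (volume Ω * cheegerSym Ω) := by
    rw [mul_min]
    refine le_min ?_ hs
    calc smallestSection Ω = 1 * smallestSection Ω := (one_mul _).symm
      _ ≤ ENNReal.ofReal D * smallestSection Ω :=
        mul_le_mul_left (by rw [← ENNReal.ofReal_one]; exact ENNReal.ofReal_le_ofReal hD) _
  refine h2.trans ?_
  have h3 : ENNReal.ofReal D * min (smallestSection Ω) (volume Ω * cheegerSym Ω) =
      ENNReal.ofReal (1 / c * D) *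
        (ENNReal.ofReal c * min (smallestSection Ω) (volume Ω * cheegerSym Ω)) := by
    rw [← mul_assoc, ← ENNReal.ofReal_mul (by positivity)]
    congr 2
    field_simp
  rw [h3]
  exact mul_le_mul_right h1 _

end Pool.Agent.Results.MP_dc1397_gt.SymmetricSets
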